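import Mathlib
import Pool.Agent.W560.HP.Stm

/-! The induction step: adding one node close to zero, arbitrary set of present nodes. -/

set_option autoImplicit false

namespace W368.HP

open Finset Polynomial
open W560.Sep (dt dt_map dt_congr dt_row dt_col dt_last dt_last_col exists_adj eq_zero_of_dt)
open W560.HP

variable {A B : Type*} [CommRing A] [CommRing B]

theorem g_map (φ : A →+* B) (m : ℕ) (r : ℕ → A) (j : ℕ) :
    (g m r j).map φ = g m (fun j => φ (r j)) j := by
  unfold g
  simp

theorem h_map (φ : A →+* B) (m : ℕ) (r τ : ℕ → A) (j : ℕ) :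
    (h m r τ j).map φ = h m (fun j => φ (r j)) (fun j => φ (τ j)) j := by
  unfold h
  split_ifs <;> simp

theorem g_coeff (φ : A →+* B) (m : ℕ) (r : ℕ → A) (j l : ℕ) :
    φ ((g m r j).coeff l) = (g m (fun j => φ (r j)) j).coeff l := by
  rw [← g_map, coeff_map]

theorem h_coeff (φ : A →+* B) (m : ℕ) (r τ : ℕ → A) (j l : ℕ) :
    φ ((h m r τ j).coeff l) = (h m (fun j => φ (r j)) (fun j => φ (τ j)) j).coeff l := by
  rw [← h_map, coeff_map]

theorem step : S_STEP := by
  intro K _ _ m q σ r τ hq2 hqm hinj hnu H
  classical
  obtain ⟨n, rfl⟩ : ∃ n, m = n + 1 := ⟨m - 1, by omega⟩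
  have hqn : q ≤ n := by omega
  set ν := σ (q + 1) with hν
  have hσν : ∀ i ≤ q, σ i ≠ ν := fun i hi e => by
    have := hinj i (by omega) (q + 1) le_rfl e
    omega
  have rν : r ν = 0 := H.r0 ν hσν
  have rν1 : r (ν + 1) = 0 := H.r0 (ν + 1) hnu
  -- nodes
  set r' : ℕ → K[X] := fun j => if j = ν then X else C (r j) with hr'
  have r'ne : ∀ j, j ≠ ν → r' j = C (r j) := fun j hj => by simp [hr', hj]
  have r'ν : r' ν = X := by simp [hr']
  let ev : K[X] →+* K := evalRingHom 0
  have evC : ∀ a : K, ev (C a) = a := fun a => by simp [ev]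
  have evX : ev X = 0 := by simp [ev]
  have evr : ∀ j, ev (r' j) = r j := by
    intro j
    by_cases hj : j = ν
    · rw [hj, r'ν, evX, rν]
    · rw [r'ne j hj, evC]
  have evr' : (fun j => ev (r' j)) = r := funext evr
  -- entries at epsilon = 0
  have e1 : ∀ i l, ev ((g (n + 1) r' i).coeff l) = (g (n + 1) r i).coeff l := by
    intro i l
    rw [g_coeff, evr']
  set ch : ℕ → K := fun l => ((n + 1).choose l : K) with hch
  have chne : ∀ l ≤ n + 1, ch l ≠ 0 := by
    intro l hl
    simp only [hch]
    exact_mod_cast (Nat.choose_pos hl).ne'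
  -- the normalised matrix with an extra row
  set gh : ℕ → ℕ → K[X] := fun l i => if l = q + 1 then (if i = q + 1 then 1 else 0)
    else if i = q + 1 then (if l = 0 then 0 else C (ch (l - 1)) * X ^ (q - l))
    else (g (n + 1) r' (σ i)).coeff l with hgh
  obtain ⟨t, ht1, ht2⟩ := exists_adj (q + 1) gh
  set Δ : K := dt (q + 1) (fun l i => (g (n + 1) r (σ i)).coeff l) with hΔ
  have hΔ0 : Δ ≠ 0 := H.p2
  have e2 : ev (dt (q + 2) gh) = Δ := by
    rw [dt_map, dt_last]
    · have h1 : ev (gh (q + 1) (q + 1)) = 1 := by simp [hgh]
      rw [h1, one_mul]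
      apply dt_congr
      intro l hl i hi
      have h2 : gh l i = (g (n + 1) r' (σ i)).coeff l := by
        simp only [hgh]
        rw [if_neg (by omega), if_neg (by omega)]
      rw [h2, e1]
    · intro j hj
      have : gh (q + 1) j = 0 := by
        simp only [hgh, if_true]
        rw [if_neg (by omega)]
      rw [this, map_zero]
  have htq : t (q + 1) = dt (q + 2) gh := by
    rw [← ht2, Finset.sum_range_succ, Finset.sum_eq_zero]
    · simp [hgh]
    · intro j hj
      have hj' := Finset.mem_range.mp hj
      have : gh (q + 1) j = 0 := by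
        simp only [hgh, if_true]
        rw [if_neg (by omega)]
      rw [this, zero_mul]
  set t0 : ℕ → K := fun i => ev (t i) with ht0
  have t0q : t0 (q + 1) = Δ := by simp only [ht0, htq, e2]
  have ghg : ∀ l < q + 1, ∀ i < q + 1, gh l i = (g (n + 1) r' (σ i)).coeff l := by
    intro l hl i hi
    simp only [hgh]
    rw [if_neg (by omega), if_neg (by omega)]
  -- equations at epsilon = 0
  have e3 : ∀ l < q, ∑ i ∈ range (q + 1), (g (n + 1) r (σ i)).coeff l * t0 i = 0 := by
    intro l hl
    have h1 := congrArg ev (ht1 l (by omega))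
    rw [Finset.sum_range_succ, map_add, map_zero, map_mul, map_sum] at h1
    have h2 : ev (gh l (q + 1)) = 0 := by
      simp only [hgh]
      rw [if_neg (by omega), if_pos trivial]
      split_ifs
      · exact map_zero ev
      · rw [map_mul, map_pow, evX, zero_pow (by omega), mul_zero]
    rw [h2, zero_mul, add_zero] at h1
    rw [← h1]
    refine Finset.sum_congr rfl fun i hi => ?_
    have hi' := Finset.mem_range.mp hi
    rw [ghg l (by omega) i hi', map_mul, e1]
  have e3' : ∑ i ∈ range (q + 1), (g (n + 1) r (σ i)).coeff q * t0 i = - (ch (q - 1) * Δ) := by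
    have h1 := congrArg ev (ht1 q (by omega))
    rw [Finset.sum_range_succ, map_add, map_zero, map_mul, map_sum] at h1
    have h2 : ev (gh q (q + 1)) = ch (q - 1) := by
      simp only [hgh]
      rw [if_neg (by omega), if_pos trivial, if_neg (by omega), Nat.sub_self, pow_zero, mul_one, evC]
    have h3 : ev (t (q + 1)) = Δ := t0q
    rw [h2, h3] at h1
    rw [← sub_eq_zero, sub_neg_eq_add, ← h1]
    congr 1
    refine Finset.sum_congr rfl fun i hi => ?_
    have hi' := Finset.mem_range.mp hi
    rw [ghg q (by omega) i hi', map_mul, e1]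
  -- comparison with the old weights
  set T : K := ∑ i ∈ range (q + 1), (g (n + 1) r (σ i)).coeff q * τ (σ i) with hT
  have hT0 : T ≠ 0 := by
    intro e
    have := eq_zero_of_dt (q + 1) (fun l i => (g (n + 1) r (σ i)).coeff l) H.p2
      (fun i => τ (σ i)) (by
      intro i hi
      rcases Nat.lt_or_ge i q with h1 | h1
      · exact H.p1 i h1
      · have : i = q := by omega
        subst this
        exact e) 0 (by omega)
    exact H.p4 0 (by omega) this
  set lam : K := - (ch (q - 1) * Δ) / T with hlam
  have hlam0 : lam ≠ 0 := div_ne_zero (neg_ne_zero.mpr (mul_ne_zero (chne _ (by omega)) hΔ0)) hT0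
  have e4 : ∀ i ≤ q, t0 i = lam * τ (σ i) := by
    intro i hi
    have := eq_zero_of_dt (q + 1) (fun l i => (g (n + 1) r (σ i)).coeff l) H.p2
      (fun i => t0 i - lam * τ (σ i)) (by
        intro l hl
        have h1 : ∑ j ∈ range (q + 1), (g (n + 1) r (σ j)).coeff l * (t0 j - lam * τ (σ j))
            = ∑ j ∈ range (q + 1), (g (n + 1) r (σ j)).coeff l * t0 j
              - lam * ∑ j ∈ range (q + 1), (g (n + 1) r (σ j)).coeff l * τ (σ j) := by
          rw [Finset.mul_sum, ← Finset.sum_sub_distrib]
          refine Finset.sum_congr rfl fun j _ => by ring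
        rw [h1]
        rcases Nat.lt_or_ge l q with h2 | h2
        · rw [e3 l h2, H.p1 l h2]; ring
        · have : l = q := by omega
          subst this
          rw [e3', ← hT, hlam]
          field_simp
          ring) i (by omega)
    exact sub_eq_zero.mp this
  have tne : ∀ i ≤ q + 1, t i ≠ 0 := by
    intro i hi e
    have h1 : t0 i = 0 := by simp only [ht0, e, map_zero]
    rcases Nat.lt_or_ge i (q + 1) with h2 | h2
    · rw [e4 i (by omega)] at h1
      exact mul_ne_zero hlam0 (H.p4 i (by omega)) h1
    · have : i = q + 1 := by omega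
      subst this
      rw [t0q] at h1
      exact hΔ0 h1
  -- node indexed weights
  set s : ℕ → K[X] := fun j => ∑ i ∈ range (q + 2), if σ i = j then t i else 0 with hs
  have sσ : ∀ i ≤ q + 1, s (σ i) = t i := by
    intro i hi
    simp only [hs]
    rw [Finset.sum_eq_single i]
    · simp
    · intro b hb hbi
      have hb' := Finset.mem_range.mp hb
      rw [if_neg fun e => hbi (hinj b (by omega) i hi e)]
    · intro hh
      exact absurd (Finset.mem_range.mpr (by omega)) hh
  have s0 : ∀ j, (∀ i ≤ q + 1, σ i ≠ j) → s j = 0 := by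
    intro j hj
    simp only [hs]
    refine Finset.sum_eq_zero fun i hi => ?_
    have hi' := Finset.mem_range.mp hi
    rw [if_neg (hj i (by omega))]
  have sν : s ν = t (q + 1) := sσ (q + 1) le_rfl
  have evs : ∀ j, j ≠ ν → ev (s j) = lam * τ j := by
    intro j hj
    by_cases hex : ∃ i ≤ q, σ i = j
    · obtain ⟨i, hi, rfl⟩ := hex
      rw [sσ i (by omega)]
      exact e4 i hi
    · have hex' : ∀ i ≤ q, σ i ≠ j := fun i hi e => hex ⟨i, hi, e⟩
      rw [s0 j, map_zero, H.t0 j hex', mul_zero]
      intro i hi
      rcases Nat.lt_or_ge i (q + 1) with h2 | h2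
      · exact hex' i (by omega)
      · have : i = q + 1 := by omega
        subst this
        exact fun e => hj e.symm
  -- the new weights
  set τ' : ℕ → K[X] := fun j => if j = ν then s j else X ^ (n + 2 - q) * s j with hτ'
  have τ'ne : ∀ j, j ≠ ν → τ' j = X ^ (n + 2 - q) * s j := fun i hi => by simp [hτ', hi]
  have τ'ν : τ' ν = t (q + 1) := by simp [hτ', sν]
  -- the coefficients of the last column
  have gν : g (n + 1) r' ν = X * (X + C X) ^ (n + 1) := by
    unfold g
    rw [r'ν, r'ne (ν + 1) (by omega), rν1, map_zero, map_zero, add_zero, mul_comm]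
  have glast0 : (g (n + 1) r' ν).coeff 0 = 0 := by
    rw [gν, coeff_X_mul_zero]
  have glast : ∀ l, (g (n + 1) r' ν).coeff (l + 1) = X ^ (n + 1 - l) * C (ch l) := by
    intro l
    rw [gν, coeff_X_mul, coeff_X_add_C_pow]
    simp [hch]
  refine ⟨r', τ', ?_, ?_, ?_, ?_, ?_, ?_⟩
  · -- r0
    intro j hj
    have hjν : j ≠ ν := fun e => hj (q + 1) le_rfl e.symm
    rw [r'ne j hjν, H.r0 j fun i hi => hj i (by omega), map_zero]
  · -- t0
    intro j hj
    have hjν : j ≠ ν := fun e => hj (q + 1) le_rfl e.symm
    rw [τ'ne j hjν, s0 j hj, mul_zero]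
  · -- p1
    intro l hl
    have h1 : ∑ i ∈ range (q + 1 + 1), (g (n + 1) r' (σ i)).coeff l * τ' (σ i)
        = X ^ (n + 2 - q) * ∑ i ∈ range (q + 1 + 1), gh l i * t i := by
      rw [Finset.sum_range_succ, Finset.sum_range_succ (fun i => gh l i * t i) (q + 1), mul_add,
        Finset.mul_sum]
      congr 1
      · refine Finset.sum_congr rfl fun i hi => ?_
        have hi' := Finset.mem_range.mp hi
        rw [ghg l hl i hi', τ'ne (σ i) (hσν i (by omega)), sσ i (by omega)]
        ring
      · rw [← hν, τ'ν]
        have h2 : (g (n + 1) r' ν).coeff l = X ^ (n + 2 - q) * gh l (q + 1) := by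
          simp only [hgh]
          rw [if_neg (by omega), if_pos trivial]
          rcases l with _ | l
          · rw [if_pos rfl, glast0, mul_zero]
          · rw [if_neg (by omega), glast, Nat.add_sub_cancel, mul_comm (C (ch l)), ← mul_assoc,
              ← pow_add]
            congr 2
            omega
        rw [h2, mul_assoc]
    rw [h1, ht1 l hl, mul_zero]
  · -- p2
    set G2 : ℕ → ℕ → K[X] := fun l i => if i = q + 1 then
      (if l = 0 then 0 else C (ch (l - 1)) * X ^ (q + 1 - l)) else (g (n + 1) r' (σ i)).coeff l
      with hG2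
    have h1 : dt (q + 1 + 1) (fun l i => (g (n + 1) r' (σ i)).coeff l)
        = (∏ i ∈ range (q + 1 + 1), (if i = q + 1 then X ^ (n + 1 - q) else 1 : K[X]))
          * dt (q + 1 + 1) G2 := by
      rw [← dt_col]
      apply dt_congr
      intro l hl i hi
      by_cases hi1 : i = q + 1
      · subst hi1
        simp only [if_true, hG2]
        rw [← hν]
        rcases l with _ | l
        · rw [if_pos rfl, glast0, mul_zero]
        · rw [if_neg (by omega), glast, Nat.add_sub_cancel, mul_comm (C (ch l)), ← mul_assoc,
            ← pow_add]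
          congr 2
          omega
      · simp only [hG2, if_neg hi1, one_mul]
    rw [h1]
    apply mul_ne_zero
    · rw [Finset.prod_ne_zero_iff]
      intro i _
      split_ifs
      · exact pow_ne_zero _ X_ne_zero
      · exact one_ne_zero
    · intro e
      have h2 := congrArg ev e
      rw [map_zero, dt_map, dt_last_col] at h2
      · have h3 : ev (G2 (q + 1) (q + 1)) = ch q := by
          simp only [hG2]
          rw [if_pos trivial, if_neg (by omega), Nat.sub_self, pow_zero, mul_one, evC,
            Nat.add_sub_cancel]
        rw [h3] at h2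
        have h4 : dt (q + 1) (fun i j => ev (G2 i j)) = Δ := by
          apply dt_congr
          intro l hl i hi
          have : G2 l i = (g (n + 1) r' (σ i)).coeff l := by
            simp only [hG2]
            rw [if_neg (by omega)]
          rw [this, e1]
        rw [h4] at h2
        exact mul_ne_zero (chne q (by omega)) hΔ0 h2
      · intro l hl
        simp only [hG2]
        rw [if_pos trivial]
        split_ifs
        · exact map_zero ev
        · rw [map_mul, map_pow, evX, zero_pow (by omega), mul_zero]
  · -- p3
    set P : K[X][X] := if ν = 0 then 0 else C (s (ν - 1)) * (X + C (r' (ν - 1))) ^ (n + 1) with hP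
    set u : ℕ → K[X] := fun l => P.coeff l with hu
    set v : ℕ → K[X] := fun l => if l = q + 1 then X else 1 with hv
    set w : ℕ → K[X] := fun i => if i = q + 1 then X ^ (n + 1 - q) else X ^ (n + 2 - q) with hw
    set S : ℕ → ℕ → K[X] := fun l i => if i = q + 1 then
      (if l = 0 then X * u 0
        else if l = q + 1 then ((n : K[X]) + 1) * t (q + 1) * C ((n.choose q : ℕ) : K)
          + X ^ 2 * u (q + 1)
        else ((n : K[X]) + 1) * t (q + 1) * C ((n.choose (l - 1) : ℕ) : K) * X ^ (q - l) + X * u l)
      else v l * (h (n + 1) r' s (σ i)).coeff l with hS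
    have hscale : ∀ i ≤ q, h (n + 1) r' τ' (σ i) = C (X ^ (n + 2 - q)) * h (n + 1) r' s (σ i) := by
      intro i hi
      unfold h
      rw [τ'ne (σ i) (hσν i hi)]
      by_cases h0 : σ i = 0
      · rw [if_pos h0, if_pos h0]
        simp only [map_mul]
        ring
      · rw [if_neg h0, if_neg h0, τ'ne (σ i - 1) (by have := hnu i hi; omega)]
        simp only [map_mul]
        ring
    have hlast : ∀ l, (h (n + 1) r' τ' ν).coeff l
        = ((n : K[X]) + 1) * t (q + 1) * (X * (X + C X) ^ n : K[X][X]).coeff l
          + X ^ (n + 2 - q) * u l := by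
      intro l
      have h8 : h (n + 1) r' τ' ν = C (((n : K[X]) + 1) * t (q + 1)) * (X * (X + C X) ^ n)
          + C (X ^ (n + 2 - q)) * P := by
        unfold h
        rw [τ'ν, r'ν, r'ne (ν + 1) (by omega), rν1, map_zero, map_zero, add_zero,
          Nat.add_sub_cancel]
        by_cases h0 : ν = 0
        · rw [if_pos h0, hP, if_pos h0, mul_zero]
          push_cast
          ring
        · rw [if_neg h0, hP, if_neg h0, τ'ne (ν - 1) (by omega)]
          simp only [map_mul]
          push_cast
          ring
      rw [h8, coeff_add, coeff_C_mul, coeff_C_mul]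
    have key : dt (q + 1 + 1) (fun l i => v l * (h (n + 1) r' τ' (σ i)).coeff l)
        = dt (q + 1 + 1) (fun l i => w i * S l i) := by
      apply dt_congr
      intro l hl i hi
      by_cases hi1 : i = q + 1
      · subst hi1
        simp only [hw, hS, if_true]
        rw [← hν, hlast]
        rcases l with _ | l
        · rw [if_pos rfl, coeff_X_mul_zero]
          simp only [hv]
          rw [if_neg (by omega)]
          have h5 : (X : K[X]) ^ (n + 2 - q) = X ^ (n + 1 - q) * X := by
            rw [← pow_succ]; congr 1; omega
          rw [h5]; ring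
        · rw [if_neg (by omega), coeff_X_mul, coeff_X_add_C_pow]
          by_cases hl1 : l = q
          · subst hl1
            simp only [hv, if_true]
            have h5 : (X : K[X]) ^ (n + 2 - l) = X ^ (n + 1 - l) * X := by
              rw [← pow_succ]; congr 1; omega
            have h6 : (X : K[X]) ^ (n + 1 - l) = X ^ (n - l) * X := by
              rw [← pow_succ]; congr 1; omega
            rw [h5, h6, map_natCast]
            ring
          · rw [if_neg (by omega)]
            simp only [hv]
            rw [if_neg (by omega), Nat.add_sub_cancel]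
            have h5 : (X : K[X]) ^ (n + 2 - q) = X ^ (n + 1 - q) * X := by
              rw [← pow_succ]; congr 1; omega
            have h6 : (X : K[X]) ^ (n - l) = X ^ (n + 1 - q) * X ^ (q - (l + 1)) := by
              rw [← pow_add]; congr 1; omega
            rw [h5, h6, map_natCast]
            ring
      · simp only [hw, hS, if_neg hi1]
        rw [hscale i (by omega), coeff_C_mul]
        ring
    rw [dt_row, dt_col] at key
    intro e
    rw [e, mul_zero] at key
    have hS0 : dt (q + 1 + 1) S = 0 := by
      rcases mul_eq_zero.mp key.symm with h1 | h1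
      · exfalso
        rw [Finset.prod_eq_zero_iff] at h1
        obtain ⟨i, _, hi⟩ := h1
        simp only [hw] at hi
        split_ifs at hi
        · exact pow_ne_zero _ X_ne_zero hi
        · exact pow_ne_zero _ X_ne_zero hi
      · exact h1
    have h2 := congrArg ev hS0
    rw [map_zero, dt_map, dt_last] at h2
    · have h3 : ev (S (q + 1) (q + 1)) = ((n : K) + 1) * Δ * (n.choose q : K) := by
        simp only [hS, if_true]
        rw [if_neg (by omega)]
        simp only [map_add, map_mul, map_pow, evX, map_natCast, map_one]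
        have : ev (t (q + 1)) = Δ := t0q
        rw [this]
        ring
      have h4 : dt (q + 1) (fun i j => ev (S i j))
          = lam ^ (q + 1) * dt (q + 1) (fun l i => (h (n + 1) r τ (σ i)).coeff l) := by
        have h5 : lam ^ (q + 1) = ∏ _i ∈ range (q + 1), lam := by simp
        rw [h5, ← dt_col]
        apply dt_congr
        intro l hl i hi
        have h6 : S l i = (h (n + 1) r' s (σ i)).coeff l := by
          simp only [hS]
          rw [if_neg (by omega)]
          simp only [hv]
          rw [if_neg (by omega), one_mul]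
        rw [h6, h_coeff]
        have h7 : h (n + 1) (fun j => ev (r' j)) (fun j => ev (s j)) (σ i)
            = C lam * h (n + 1) r τ (σ i) := by
          rw [evr']
          unfold h
          beta_reduce
          rw [evs (σ i) (hσν i (by omega))]
          by_cases h0 : σ i = 0
          · rw [if_pos h0, if_pos h0]
            simp only [map_mul]
            ring
          · rw [if_neg h0, if_neg h0, evs (σ i - 1) (by have := hnu i (by omega); omega)]
            simp only [map_mul]
            ring
        rw [h7, coeff_C_mul]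
      rw [h3, h4] at h2
      have n1 : (n : K) + 1 ≠ 0 := by exact_mod_cast Nat.succ_ne_zero n
      have n2 : (n.choose q : K) ≠ 0 := by exact_mod_cast (Nat.choose_pos hqn).ne'
      exact mul_ne_zero (mul_ne_zero (mul_ne_zero n1 hΔ0) n2)
        (mul_ne_zero (pow_ne_zero _ hlam0) H.p3) h2
    · intro j hj
      have : S (q + 1) j = X * (h (n + 1) r' s (σ j)).coeff (q + 1) := by
        simp only [hS]
        rw [if_neg (by omega)]
        simp only [hv, if_true]
      rw [this, map_mul, evX, zero_mul]
  · -- p4
    intro i hi
    rcases Nat.lt_or_ge i (q + 1) with h2 | h2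
    · rw [τ'ne (σ i) (hσν i (by omega)), sσ i hi]
      exact mul_ne_zero (pow_ne_zero _ X_ne_zero) (tne i hi)
    · have : i = q + 1 := by omega
      subst this
      rw [← hν, τ'ν]
      exact tne _ hi

end W368.HP
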